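import Pool.Agent.Lib.MP_305fdd_al.Fr.Asm.StmT
import Pool.Agent.Lib.MP_305fdd_al.Fr.N.Hlp
import Pool.Agent.Lib.MP_305fdd_al.Fr.F.Lat
import Pool.Agent.Lib.MP_305fdd_al.Fr.D.Dich

/-!
# MP_305fdd_al, F_r project, assembly: the theorem (T) from its parts
-/

set_option autoImplicit false

namespace Pool.Agent.FrAsm

open Pool.Agent.FrN Pool.Agent.MP_305fdd_al Pool.Agent.F2RF Pool.Agent.F2Ch Pool.Agent.FrS

/-! ## minimal splittings -/

theorem exists_smin {Γ F : Type} [Group Γ] [Field F] [Algebra (ZMod 2) F] (hfg : Group.FG Γ)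
    (ρ : Γ →* Matrix.SpecialLinearGroup (Fin 2) F) : ∃ S : GG Γ, Smin ρ S := by
  classical
  have h1 : ∃ n, ∃ S : GG Γ, S.Adm ∧ DD ρ S = n := ⟨_, GG.one Γ, GG.one_adm Γ hfg, rfl⟩
  have h2 : ∃ m, ∃ S : GG Γ, S.Adm ∧ DD ρ S = Nat.find h1 ∧ Fintype.card S.E = m := by
    obtain ⟨S, hS, hn⟩ := Nat.find_spec h1
    exact ⟨_, S, hS, hn, rfl⟩
  obtain ⟨S, hS, hn, hm⟩ := Nat.find_spec h2
  refine ⟨S, hS, fun S' hS' => ?_⟩
  have h3 : Nat.find h1 ≤ DD ρ S' := Nat.find_min' h1 ⟨S', hS', rfl⟩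
  rcases lt_or_eq_of_le h3 with h | h
  · exact Or.inl (by rw [hn]; exact h)
  · exact Or.inr ⟨by rw [hn]; exact h, by
      rw [hm]; exact Nat.find_min' h2 ⟨S', hS', h.symm, rfl⟩⟩

/-! ## Dickson polynomials in characteristic two -/

open Polynomial in
theorem dickson_four (n : ℕ) : dickson 1 (1 : ZMod 2) (n + 4) =
    X ^ 2 * dickson 1 (1 : ZMod 2) (n + 2) + dickson 1 (1 : ZMod 2) n := by
  have h1 := dickson_add_two 1 (1 : ZMod 2) n
  have h2 := dickson_add_two 1 (1 : ZMod 2) (n + 1)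
  have h3 := dickson_add_two 1 (1 : ZMod 2) (n + 2)
  have h4 : ∀ p : (ZMod 2)[X], p + p = 0 := fun p => CharTwo.add_self_eq_zero p
  rw [map_one, one_mul] at h1 h2 h3
  have e2 : n + 1 + 2 = n + 3 := rfl
  have e3 : n + 2 + 2 = n + 4 := rfl
  have e4 : n + 1 + 1 = n + 2 := rfl
  have e5 : n + 2 + 1 = n + 3 := rfl
  rw [e2, e4] at h2
  rw [e3, e5] at h3
  have h5 := h4 (dickson 1 (1 : ZMod 2) (n + 2))
  have h6 := h4 (dickson 1 (1 : ZMod 2) n)
  rw [h3, h2]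
  linear_combination (-1 : (ZMod 2)[X]) * h5 - h6 + h1

open Polynomial in
theorem exists_sqrt (n : ℕ) : ∃ P Q : (ZMod 2)[X], P ^ 2 * X = dickson 1 (1 : ZMod 2) (2 * n + 1) ∧
    Q ^ 2 * X = dickson 1 (1 : ZMod 2) (2 * n + 3) := by
  have h4 : ∀ p : (ZMod 2)[X], p + p = 0 := fun p => CharTwo.add_self_eq_zero p
  induction n with
  | zero =>
    refine ⟨1, 1 + X, by simp, ?_⟩
    have h1 := dickson_add_two 1 (1 : ZMod 2) 1
    have h2 := dickson_add_two 1 (1 : ZMod 2) 0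
    have e1 : 1 + 2 = 3 := rfl
    have e2 : 0 + 2 = 2 := rfl
    rw [map_one, one_mul, e1] at h1
    rw [map_one, one_mul, e2] at h2
    have e3 : 1 + 1 = 2 := rfl
    have e4 : 0 + 1 = 1 := rfl
    rw [e3] at h1
    rw [e4, dickson_one, dickson_zero] at h2
    rw [dickson_one] at h1
    have e5 : 2 * 0 + 3 = 3 := rfl
    rw [e5, h1, h2]
    have h5 := h4 X
    have h6 := h4 (X ^ 2)
    have h7 := h4 1
    push_cast
    linear_combination (2 * X + X ^ 2) * h7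
  | succ n ih =>
    obtain ⟨P, Q, hP, hQ⟩ := ih
    refine ⟨Q, X * Q + P, hQ, ?_⟩
    have h1 := dickson_four (2 * n + 1)
    have e1 : 2 * n + 1 + 4 = 2 * (n + 1) + 3 := by ring
    have e2 : 2 * n + 1 + 2 = 2 * n + 3 := by ring
    rw [e1, e2, ← hP, ← hQ] at h1
    rw [h1]
    have h2 := h4 (X * Q * P)
    linear_combination X * h2

theorem trace_pow {Γ K F : Type} [Group Γ] [Field K] [Field F] {b : ℕ} [Algebra (ZMod 2) K]
    [Algebra (ZMod 2) F] [Algebra K F] {T : Γ → K} {ρ : Γ →* Matrix.SpecialLinearGroup (Fin 2) F}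
    (H : HB 2 b Γ K F T ρ) (w : Γ) (m : ℕ) :
    T (w ^ m) = Polynomial.aeval (T w) (Polynomial.dickson 1 (1 : ZMod 2) m) := by
  induction m using Nat.twoStepInduction with
  | zero =>
    rw [pow_zero, H.one, Polynomial.dickson_zero]
    norm_num
    exact (map_ofNat (Polynomial.aeval (T w)) 2).symm
  | one => rw [pow_one, Polynomial.dickson_one, Polynomial.aeval_X]
  | more n h1 h2 =>
    rw [Polynomial.dickson_add_two, map_one, one_mul, map_sub, map_mul, Polynomial.aeval_X, ← h1,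
      ← h2]
    have h3 := H.rel (w ^ (n + 1)) w
    have h4 : w ^ (n + 1) * w = w ^ (n + 2) := (pow_succ w (n + 1)).symm
    have h5 : w ^ (n + 1) * w⁻¹ = w ^ n := by rw [pow_succ, mul_inv_cancel_right]
    rw [h4, h5] at h3
    linear_combination h3

/-! ## Safe elements -/

section safe

variable {b : ℕ} {Γ K F : Type} [Group Γ] [Field K] [Field F] [Algebra (ZMod 2) K]
    [Algebra (ZMod 2) F] [Algebra K F] {T : Γ → K} {ρ : Γ →* Matrix.SpecialLinearGroup (Fin 2) F}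

theorem T_ne (hD : D_DIV) (H : Blk b Γ K F T ρ) {g : Γ} (hg : g ≠ 1) : T g ≠ 0 := by
  intro h
  refine hg (hD b Γ F ρ H.cls g ?_)
  rw [H.hb.tr, h, map_zero]

theorem mem_BV {S : GG Γ} {v : S.V} {x : Γ} (h : x ∈ S.G v) : T x ∈ BV T S :=
  Algebra.subset_adjoin ⟨x, ⟨v, h⟩, rfl⟩

theorem BV_le (S : GG Γ) : BV T S ≤ BB 2 T := by
  refine Algebra.adjoin_mono ?_
  rintro _ ⟨x, _, rfl⟩
  exact ⟨x, rfl⟩

theorem RL.mem {S : GG Γ} {e : S.E} {w : Γ} {m : ℕ} (h : RL S e w m) : T w ∈ BV T S := by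
  rcases h.2.2 with ⟨_, h1, _⟩ | ⟨_, h1, _⟩
  · exact mem_BV (v := S.b e) (by rw [h1]; exact Subgroup.mem_zpowers w)
  · exact mem_BV (v := S.a e) (by rw [h1]; exact Subgroup.mem_zpowers w)

theorem RL.ne {S : GG Γ} (hS : S.Adm) {e : S.E} {w : Γ} {m : ℕ} (h : RL S e w m) : w ^ m ≠ 1 := by
  intro hw
  refine hS.ne e ?_
  rcases h.2.2 with ⟨_, _, h1⟩ | ⟨_, _, h1⟩
  · rw [h1, hw, mul_one, mul_inv_cancel, Subgroup.zpowers_one_eq_bot]
  · rw [h1, hw, Subgroup.zpowers_one_eq_bot]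

theorem SafeEl.mem {S : GG Γ} {e : S.E} {f : K} (h : SafeEl T S e f) : f ∈ BV T S := by
  cases h with
  | tr z hz _ =>
    refine mem_BV (v := S.a e) (S.Ca e ?_)
    rw [hz]
    exact Subgroup.mem_zpowers z
  | ev w m h _ => exact h.mem
  | od w m h _ P _ =>
    have h1 : Polynomial.aeval (T w) P ∈ Algebra.adjoin (ZMod 2) {T w} :=
      Polynomial.aeval_mem_adjoin_singleton _ _
    exact Algebra.adjoin_le (Set.singleton_subset_iff.mpr h.mem) h1

theorem SafeEl.ne (hD : D_DIV) (H : Blk b Γ K F T ρ) {S : GG Γ} (hS : S.Adm) {e : S.E} {f : K}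
    (h : SafeEl T S e f) : f ≠ 0 := by
  cases h with
  | tr z hz _ =>
    refine T_ne hD H fun h => hS.ne e ?_
    rw [hz, h, Subgroup.zpowers_one_eq_bot]
  | ev w m h _ =>
    refine T_ne hD H fun h1 => h.ne hS ?_
    rw [h1, one_pow]
  | od w m h _ P hP =>
    intro h1
    refine T_ne hD H (h.ne hS) ?_
    rw [trace_pow H.hb, ← hP, map_mul, map_pow, h1, zero_pow two_ne_zero, zero_mul]

theorem exists_safe (S : GG Γ) (e : S.E) (he : Cyc S e) : ∃ f, SafeEl T S e f := by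
  by_cases h : ∃ w m, RL S e w m
  · obtain ⟨w, m, h⟩ := h
    rcases Nat.even_or_odd m with hm | hm
    · exact ⟨_, SafeEl.ev w m h hm⟩
    · obtain ⟨n, hn⟩ := hm
      obtain ⟨P, _, hP, _⟩ := exists_sqrt n
      exact ⟨_, SafeEl.od w m h ⟨n, hn⟩ P (by rw [hn]; exact hP)⟩
  · obtain ⟨z, hz⟩ := he
    exact ⟨_, SafeEl.tr z hz h⟩

theorem exists_safeProd (T : Γ → K) (S : GG Γ) : ∃ y, SafeProd T S y := by
  classical
  have h : ∀ e : S.E, ∃ f, (Cyc S e → SafeEl T S e f) ∧ (¬ Cyc S e → f = 1) := by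
    intro e
    by_cases he : Cyc S e
    · obtain ⟨f, hf⟩ := exists_safe (T := T) S e he
      exact ⟨f, fun _ => hf, fun h => absurd he h⟩
    · exact ⟨1, fun h => absurd h he, fun _ => rfl⟩
  choose f hf using h
  exact ⟨_, f, fun e => (hf e).1, fun e => (hf e).2, rfl⟩

theorem SafeProd.mem {S : GG Γ} {y : K} (h : SafeProd T S y) : y ∈ BV T S := by
  obtain ⟨f, h1, h2, rfl⟩ := h
  refine Subalgebra.prod_mem _ fun e _ => ?_
  by_cases he : Cyc S e
  · exact (h1 e he).mem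
  · rw [h2 e he]
    exact one_mem _

theorem SafeProd.ne (hD : D_DIV) (H : Blk b Γ K F T ρ) {S : GG Γ} (hS : S.Adm) {y : K}
    (h : SafeProd T S y) : y ≠ 0 := by
  obtain ⟨f, h1, h2, rfl⟩ := h
  refine Finset.prod_ne_zero_iff.mpr fun e _ => ?_
  by_cases he : Cyc S e
  · exact (h1 e he).ne hD H hS
  · rw [h2 e he]
    exact one_ne_zero

/-! ## The rings -/

theorem BV_fg (H : HB 2 b Γ K F T ρ) {S : GG Γ} (hS : S.Adm) : (BV T S).FG := by
  classical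
  have h1 : ∀ v, ∃ s : Finset K, Algebra.adjoin (ZMod 2) (s : Set K) =
      Algebra.adjoin (ZMod 2) (T '' (S.G v : Set Γ)) := by
    intro v
    have hf : Group.FG (S.G v) := (Group.fg_iff_subgroup_fg _).mpr (hS.fgV v)
    have hp : Pool.Agent.CC.PChar (F := ZMod 2) (1 : S.G v →* (ZMod 2)ˣ) (fun x : S.G v => T x) :=
      { one := H.one
        comm := fun g h => H.comm g h
        rel := fun g h => by
          rw [MonoidHom.one_apply, Units.val_one, map_one, one_mul]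
          exact H.rel g h }
    obtain ⟨s, hs⟩ := hp.fg
    refine ⟨s, hs.trans ?_⟩
    congr 1
    ext z
    constructor
    · rintro ⟨x, rfl⟩
      exact ⟨x, x.2, rfl⟩
    · rintro ⟨x, hx, rfl⟩
      exact ⟨⟨x, hx⟩, rfl⟩
  choose s hs using h1
  refine ⟨Finset.univ.biUnion s, le_antisymm (Algebra.adjoin_le ?_) (Algebra.adjoin_le ?_)⟩
  · intro z hz
    rw [Finset.mem_coe, Finset.mem_biUnion] at hz
    obtain ⟨v, _, hz⟩ := hz
    have h2 : z ∈ Algebra.adjoin (ZMod 2) (T '' (S.G v : Set Γ)) := by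
      rw [← hs]
      exact Algebra.subset_adjoin hz
    refine Algebra.adjoin_mono ?_ h2
    rintro _ ⟨x, hx, rfl⟩
    exact ⟨x, ⟨v, hx⟩, rfl⟩
  · rintro _ ⟨x, ⟨v, hx⟩, rfl⟩
    have h2 : T x ∈ Algebra.adjoin (ZMod 2) (s v : Set K) := by
      rw [hs]
      exact Algebra.subset_adjoin ⟨x, hx, rfl⟩
    refine Algebra.adjoin_mono ?_ h2
    exact fun z hz => Finset.mem_coe.mpr (Finset.mem_biUnion.mpr ⟨v, Finset.mem_univ v, hz⟩)

theorem ly_fg {B : Subalgebra (ZMod 2) K} (hB : B.FG) (y : K) : (ly B y).FG := by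
  classical
  obtain ⟨s, hs⟩ := hB
  refine ⟨insert y⁻¹ s, le_antisymm (Algebra.adjoin_mono ?_) (Algebra.adjoin_le ?_)⟩
  · rw [Finset.coe_insert]
    refine Set.insert_subset_insert ?_
    rw [← hs]
    exact Algebra.subset_adjoin
  · rintro z (rfl | hz)
    · exact Algebra.subset_adjoin (by simp)
    · rw [SetLike.mem_coe, ← hs] at hz
      exact Algebra.adjoin_mono (by simp) hz

theorem le_ly (B : Subalgebra (ZMod 2) K) (y : K) : B ≤ ly B y :=
  fun _ hx => Algebra.subset_adjoin (Set.mem_insert_of_mem _ hx)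

theorem ly_form {B : Subalgebra (ZMod 2) K} {y : K} (hy : y ∈ B) (hy0 : y ≠ 0) {z : K}
    (hz : z ∈ ly B y) : ∃ β ∈ B, ∃ a : ℕ, z = β / y ^ a := by
  induction hz using Algebra.adjoin_induction with
  | mem z hz =>
    rcases hz with rfl | hz
    · exact ⟨1, one_mem _, 1, by rw [pow_one, one_div]⟩
    · exact ⟨z, hz, 0, by rw [pow_zero, div_one]⟩
  | algebraMap r => exact ⟨_, B.algebraMap_mem r, 0, by rw [pow_zero, div_one]⟩
  | add z z' _ _ h h' =>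
    obtain ⟨β, hβ, a, rfl⟩ := h
    obtain ⟨β', hβ', a', rfl⟩ := h'
    refine ⟨β * y ^ a' + β' * y ^ a, add_mem (mul_mem hβ (pow_mem hy _))
      (mul_mem hβ' (pow_mem hy _)), a + a', ?_⟩
    rw [pow_add]
    field_simp
  | mul z z' _ _ h h' =>
    obtain ⟨β, hβ, a, rfl⟩ := h
    obtain ⟨β', hβ', a', rfl⟩ := h'
    refine ⟨β * β', mul_mem hβ hβ', a + a', ?_⟩
    rw [pow_add]
    field_simp

theorem ly_le_KV {S : GG Γ} {y : K} (hy : y ∈ BV T S) : ly (BV T S) y ≤ (KV T S).toSubalgebra := by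
  have h1 : BV T S ≤ (KV T S).toSubalgebra := IntermediateField.algebra_adjoin_le_adjoin _ _
  refine Algebra.adjoin_le ?_
  rintro z (rfl | hz)
  · exact (KV T S).inv_mem (h1 hy)
  · exact h1 hz

theorem BVy_fg (H : HB 2 b Γ K F T ρ) {S : GG Γ} (hS : S.Adm) {y : K} (hy : y ∈ BV T S) :
    (BVy T S y).FG := by
  refine Subalgebra.fg_of_fg_map _ (KV T S).val (KV T S).val.injective ?_
  have h1 : (BVy T S y).map (KV T S).val = ly (BV T S) y := by
    unfold BVy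
    rw [Subalgebra.map_comap_eq]
    refine inf_eq_left.mpr ?_
    intro z hz
    exact ⟨⟨z, ly_le_KV hy hz⟩, rfl⟩
  rw [h1]
  exact ly_fg (BV_fg H hS) y

theorem BVy_frac {S : GG Γ} (y : K) (x : KV T S) :
    ∃ a ∈ BVy T S y, ∃ c ∈ BVy T S y, c ≠ 0 ∧ x * c = a := by
  have h1 : BV T S ≤ (KV T S).toSubalgebra := IntermediateField.algebra_adjoin_le_adjoin _ _
  obtain ⟨r, hr, s, hs, hx⟩ := IntermediateField.mem_adjoin_iff_div.mp x.2
  by_cases h0 : s = 0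
  · refine ⟨0, zero_mem _, 1, one_mem _, one_ne_zero, ?_⟩
    rw [h0, div_zero] at hx
    rw [mul_one]
    exact Subtype.ext hx
  · refine ⟨⟨r, h1 hr⟩, le_ly _ y hr, ⟨s, h1 hs⟩, le_ly _ y hs, fun h => h0 (congrArg Subtype.val h),
      Subtype.ext ?_⟩
    change x.1 * s = r
    rw [hx]
    field_simp

end safe

/-! ## The theorem -/

theorem exists_logTy {b : ℕ} {Γ K F : Type} [Group Γ] [Field K] [Field F] [Algebra (ZMod 2) K]
    [Algebra (ZMod 2) F] [Algebra K F] {T : Γ → K} {ρ : Γ →* Matrix.SpecialLinearGroup (Fin 2) F}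
    (H : HB 2 b Γ K F T ρ) : ∃ Φ : K → K, LogTy 2 Φ := by
  obtain ⟨n, t, ht⟩ := FrF.fracGen_of_fg (BB 2 T) H.BB_fg H.fracK
  obtain ⟨d, x, π, hMB, _⟩ := FrF.exists_MB 2 (ZMod 2) K n t ht
  exact ⟨fun f => π j0 f, d, x, π, 1, hMB, one_ne_zero, fun f => by rw [inv_one, one_mul, one_mul]⟩

theorem d_T (h1 : D_DIV) (h2 : D_NSG) (h3 : D_CNT) (h4 : D_LAU) : D_T := by
  intro b Γ K F _ _ _ _ _ _ T ρ H
  obtain ⟨S, hS⟩ := exists_smin H.cls.fg ρ
  obtain ⟨y, hy⟩ := exists_safeProd T S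
  have hyB := hy.mem
  have hy0 := hy.ne h1 H hS.1
  obtain ⟨Φ, hΦ⟩ := exists_logTy H.hb
  obtain ⟨k₁, hk₁, hc⟩ := h3 b Γ K F T ρ H S hS y hy
  have hQ : FrF.PropQ 2 (BVy T S y).toSubring := by
    rcases FrD.dichotomy (BVy T S y) (BVy_fg H.hb hS.1 hyB) (fun x => BVy_frac y x) with
      ⟨x, hx⟩ | ⟨O, d, f, hb⟩
    · exact absurd ⟨x, hx⟩ (h2 b Γ K F T ρ H S hS y hy)
    · have : CharP (KV T S) 2 :=
        charP_of_injective_algebraMap (algebraMap (ZMod 2) (KV T S)).injective 2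
      exact FrF.base 2 (BVy T S y) (BVy_fg H.hb hS.1 hyB) (fun x => BVy_frac y x) hb
  have hQ' := h4 b Γ K F T ρ H S hS y hyB hy0 hQ
  refine ⟨⟨y, BV_le S hyB⟩, Φ, k₁, fun h => hy0 (congrArg Subtype.val h), hk₁, hΦ, ?_, hc⟩
  rintro ⟨c, hcB, hc0, h⟩
  obtain ⟨z, hz, hn⟩ := hQ' Φ hΦ c (le_ly _ y hcB) hc0
  obtain ⟨β, hβ, a, rfl⟩ := ly_form (BV_le S hyB) hy0 hz
  obtain ⟨e, he⟩ := h β hβ a
  exact hn e (by rw [mul_comm]; exact he)

end Pool.Agent.FrAsm
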