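import Pool.Agent.Lib.MP_305fdd_al.Fr.Asm.Stm
import Pool.Agent.Lib.MP_305fdd_al.Genus

/-!
# MP_305fdd_al, F_r project, assembly: the reduction of the theorem to the blocks
-/

set_option autoImplicit false

namespace Pool.Agent.FrAsm

open Pool.Agent.FrN Pool.Agent.MP_305fdd_al Pool.Agent.F2RF
open Pool.Agent.Lib.MP_305fdd_al

/-! ## the numerical part -/

theorem hh_equiv {A B : Type} [Group A] [Group B] (e : A ≃* B) (k : ℕ) : hh A k = hh B k := by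
  refine Nat.card_congr ⟨fun f => f.comp e.symm.toMonoidHom, fun f => f.comp e.toMonoidHom, ?_, ?_⟩
  · intro f
    ext x : 1
    simp
  · intro f
    ext x : 1
    simp

theorem FD.hh {Γ : Type} [Group Γ] {A C : Subgroup Γ} (h : FD Γ A C) (k : ℕ) :
    hh Γ k = hh A k * hh C k := by
  unfold FrAsm.hh
  rw [← Nat.card_prod]
  refine Nat.card_congr (Equiv.ofBijective (fun f => (f.comp A.subtype, f.comp C.subtype)) ⟨?_, ?_⟩)
  · intro f g hfg
    have h1 : f.comp A.subtype = g.comp A.subtype := congrArg Prod.fst hfg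
    have h2 : f.comp C.subtype = g.comp C.subtype := congrArg Prod.snd hfg
    have h3 : A ⊔ C ≤ f.eqLocus g := by
      refine sup_le ?_ ?_
      · intro x hx
        exact DFunLike.congr_fun h1 ⟨x, hx⟩
      · intro x hx
        exact DFunLike.congr_fun h2 ⟨x, hx⟩
    rw [h.gen] at h3
    ext x : 1
    exact h3 (Subgroup.mem_top x)
  · rintro ⟨a, c⟩
    obtain ⟨r, h1, h2⟩ := h.ext (GaloisField 2 k) a c
    refine ⟨r, Prod.ext ?_ ?_⟩
    · ext x : 1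
      exact h1 x
    · ext x : 1
      exact h2 x

theorem hh_free (n k : ℕ) : hh (FreeGroup (Fin n)) k =
    Nat.card (Matrix.SpecialLinearGroup (Fin 2) (GaloisField 2 k)) ^ n := by
  unfold hh
  rw [Nat.card_congr FreeGroup.lift.symm, Nat.card_fun]
  simp

/-- the order of `SL_2` over a finite field -/
theorem card_SL (F : Type) [Field F] [Finite F] :
    Nat.card (Matrix.SpecialLinearGroup (Fin 2) F) = Nat.card F * (Nat.card F ^ 2 - 1) := by
  classical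
  have := Fintype.ofFinite F
  have h1 : Nat.card (GL (Fin 2) F) = (Nat.card F ^ 2 - 1) * (Nat.card F ^ 2 - Nat.card F) := by
    rw [Matrix.card_GL_field, Fin.prod_univ_two, ← Nat.card_eq_fintype_card]
    simp
  let D : GL (Fin 2) F →* Fˣ := Matrix.GeneralLinearGroup.det
  have hD : Function.Surjective D := by
    intro u
    refine ⟨Matrix.GeneralLinearGroup.mkOfDetNeZero !![(u : F), 0; 0, 1] (by simp), ?_⟩
    ext
    simp [D, Matrix.GeneralLinearGroup.mkOfDetNeZero]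
  have h2 : Nat.card (GL (Fin 2) F) = Nat.card Fˣ * Nat.card D.ker := by
    rw [Subgroup.card_eq_card_quotient_mul_card_subgroup D.ker,
      Nat.card_congr (QuotientGroup.quotientKerEquivOfSurjective D hD).toEquiv]
  have h3 : Nat.card D.ker = Nat.card (Matrix.SpecialLinearGroup (Fin 2) F) := by
    refine Nat.card_congr ⟨fun x => ⟨x.1.1, ?_⟩, fun x => ⟨(x : GL (Fin 2) F), ?_⟩, ?_, ?_⟩
    · have h := congrArg Units.val (MonoidHom.mem_ker.mp x.2)
      simpa [D] using h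
    · rw [MonoidHom.mem_ker]
      ext
      simp [D]
    · intro x
      ext
      rfl
    · intro x
      ext
      rfl
  have h4 : Nat.card Fˣ = Nat.card F - 1 := Nat.card_units F
  have hq : 1 < Nat.card F := Finite.one_lt_card
  rw [h1, h3, h4] at h2
  obtain ⟨m, hm⟩ : ∃ m, Nat.card F = m + 2 := ⟨Nat.card F - 2, by omega⟩
  rw [hm] at h2 ⊢
  have e1 : (m + 2) ^ 2 - (m + 2) = (m + 1) * (m + 2) := by
    zify [show m + 2 ≤ (m + 2) ^ 2 by nlinarith]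
    ring
  have e2 : m + 2 - 1 = m + 1 := rfl
  rw [e1, e2] at h2
  have h5 : (m + 1) * Nat.card (Matrix.SpecialLinearGroup (Fin 2) F) =
      (m + 1) * ((m + 2) * ((m + 2) ^ 2 - 1)) := by
    rw [← h2]
    ring
  exact Nat.eq_of_mul_eq_mul_left (Nat.succ_pos m) h5

theorem card_GF {k : ℕ} (hk : 1 ≤ k) : Nat.card (GaloisField 2 k) = 2 ^ k :=
  GaloisField.card 2 k (by omega)

theorem odd_factor {k : ℕ} (hk : 1 ≤ k) : ¬ 2 ∣ (2 ^ k) ^ 2 - 1 := by
  intro h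
  have h1 : 2 ∣ (2 ^ k) ^ 2 := dvd_pow (dvd_pow_self 2 (by omega)) two_ne_zero
  have h2 : 1 ≤ (2 ^ k) ^ 2 := Nat.one_le_pow _ _ (Nat.pos_of_ne_zero (by positivity))
  have h3 := (Nat.dvd_sub h1 h)
  rw [Nat.sub_sub_self h2] at h3
  omega

/-- `Lw c Γ`: the valuation of `hh Γ k` is at most `c k` up to a constant. -/
def Lw (c : ℕ) (Γ : Type) [Group Γ] : Prop :=
  ∃ V k₀ : ℕ, 1 ≤ k₀ ∧ ∀ k : ℕ, 1 ≤ k → k₀ ∣ k → ¬ 2 ^ (c * k + V) ∣ hh Γ k

theorem low_iff (b : ℕ) (Γ : Type) [Group Γ] : Low b Γ ↔ ∃ c < b, Lw c Γ := by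
  constructor
  · rintro ⟨c, V, k₀, h1, h2, h3⟩
    exact ⟨c, h1, V, k₀, h2, h3⟩
  · rintro ⟨c, h1, V, k₀, h2, h3⟩
    exact ⟨c, V, k₀, h1, h2, h3⟩

theorem not_dvd_mul {x y m n : ℕ} (hm : ¬ 2 ^ x ∣ m) (hn : ¬ 2 ^ y ∣ n) : ¬ 2 ^ (x + y) ∣ m * n := by
  have hp : Fact (Nat.Prime 2) := ⟨Nat.prime_two⟩
  have hm0 : m ≠ 0 := fun h => hm (h ▸ dvd_zero _)
  have hn0 : n ≠ 0 := fun h => hn (h ▸ dvd_zero _)
  rw [padicValNat_dvd_iff_le hm0] at hm
  rw [padicValNat_dvd_iff_le hn0] at hn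
  rw [padicValNat_dvd_iff_le (Nat.mul_ne_zero hm0 hn0), padicValNat.mul hm0 hn0]
  omega

theorem Lw.of_equiv {c : ℕ} {A B : Type} [Group A] [Group B] (e : A ≃* B) (h : Lw c A) : Lw c B := by
  obtain ⟨V, k₀, h1, h2⟩ := h
  refine ⟨V, k₀, h1, fun k hk hd => ?_⟩
  rw [← hh_equiv e]
  exact h2 k hk hd

theorem Lw.fd {a b : ℕ} {Γ : Type} [Group Γ] {A C : Subgroup Γ} (h : FD Γ A C) (hA : Lw a A)
    (hB : Lw b C) : Lw (a + b) Γ := by
  obtain ⟨V, k₀, h1, h2⟩ := hA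
  obtain ⟨W, l₀, h3, h4⟩ := hB
  refine ⟨V + W, k₀ * l₀, Nat.mul_pos h1 h3, fun k hk hd => ?_⟩
  rw [h.hh]
  have e : (a + b) * k + (V + W) = (a * k + V) + (b * k + W) := by ring
  rw [e]
  exact not_dvd_mul (h2 k hk (dvd_of_mul_right_dvd hd)) (h4 k hk (dvd_of_mul_left_dvd hd))

theorem lw_free (n : ℕ) : Lw n (FreeGroup (Fin n)) := by
  have h1 : ∀ k, 1 ≤ k → ∀ n : ℕ, ¬ 2 ^ (n * k + 1) ∣
      Nat.card (Matrix.SpecialLinearGroup (Fin 2) (GaloisField 2 k)) ^ n := by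
    intro k hk n
    have hf : Finite (GaloisField 2 k) := Nat.finite_of_card_ne_zero (by
      rw [card_GF hk]; positivity)
    have hp : Fact (Nat.Prime 2) := ⟨Nat.prime_two⟩
    have h2 : (2 ^ k) ^ 2 - 1 ≠ 0 := fun h => odd_factor hk (h ▸ dvd_zero _)
    have h3 : (2 ^ k) * ((2 ^ k) ^ 2 - 1) ≠ 0 := Nat.mul_ne_zero (by positivity) h2
    rw [card_SL, card_GF hk, padicValNat_dvd_iff_le (pow_ne_zero _ h3), padicValNat.pow,
      padicValNat.mul (by positivity) h2, padicValNat.prime_pow,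
      padicValNat.eq_zero_of_not_dvd (odd_factor hk), add_zero]
    omega
  refine ⟨1, 1, le_rfl, fun k hk _ => ?_⟩
  rw [hh_free]
  exact h1 k hk n

theorem free_of_fd (hF : D_free) {a b : ℕ} {Γ : Type} [Group Γ] {A C : Subgroup Γ} (h : FD Γ A C)
    (f : A ≃* FreeGroup (Fin a)) (g : C ≃* FreeGroup (Fin b)) :
    Nonempty (Γ ≃* FreeGroup (Fin (a + b))) := by
  let u : FreeGroup (Fin a ⊕ Fin b) →* Γ := FreeGroup.lift (Sum.elim (fun i => (f.symm (FreeGroup.of i) : Γ))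
    (fun i => (g.symm (FreeGroup.of i) : Γ)))
  have hu1 : ∀ x, u (FreeGroup.map Sum.inl x) = (f.symm x : Γ) := by
    intro x
    exact DFunLike.congr_fun (show u.comp (FreeGroup.map Sum.inl) =
      A.subtype.comp f.symm.toMonoidHom from by ext i; simp [u]) x
  have hu2 : ∀ x, u (FreeGroup.map Sum.inr x) = (g.symm x : Γ) := by
    intro x
    exact DFunLike.congr_fun (show u.comp (FreeGroup.map Sum.inr) =
      C.subtype.comp g.symm.toMonoidHom from by ext i; simp [u]) x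
  have hs : Function.Surjective u := by
    rw [← MonoidHom.range_eq_top, eq_top_iff, ← h.gen]
    refine sup_le ?_ ?_
    · intro x hx
      refine ⟨FreeGroup.map Sum.inl (f ⟨x, hx⟩), ?_⟩
      rw [hu1, f.symm_apply_apply]
    · intro x hx
      refine ⟨FreeGroup.map Sum.inr (g ⟨x, hx⟩), ?_⟩
      rw [hu2, g.symm_apply_apply]
  have hi : Function.Injective u := by
    obtain ⟨R, i1, i2, ρ₀, hρ₀⟩ := hF (a + b)
    let ρ : FreeGroup (Fin a ⊕ Fin b) →* Matrix.SpecialLinearGroup (Fin 2) R :=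
      ρ₀.comp (FreeGroup.freeGroupCongr finSumFinEquiv).toMonoidHom
    have hρ : Function.Injective ρ := hρ₀.comp (FreeGroup.freeGroupCongr finSumFinEquiv).injective
    obtain ⟨r, h1, h2⟩ := h.ext R ((ρ.comp (FreeGroup.map Sum.inl)).comp f.toMonoidHom)
      ((ρ.comp (FreeGroup.map Sum.inr)).comp g.toMonoidHom)
    have h3 : r.comp u = ρ := by
      ext i : 1
      rcases i with i | i
      · have h4 := h1 (f.symm (FreeGroup.of i))
        simpa [u] using h4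
      · have h4 := h2 (g.symm (FreeGroup.of i))
        simpa [u] using h4
    refine Function.Injective.of_comp (f := r) ?_
    have h5 : (r ∘ u : FreeGroup (Fin a ⊕ Fin b) → _) = ρ := by
      rw [← h3]
      rfl
    rw [h5]
    exact hρ
  exact ⟨(MulEquiv.ofBijective u ⟨hi, hs⟩).symm.trans (FreeGroup.freeGroupCongr finSumFinEquiv)⟩

/-- either free or of small valuation -/
def Alt (b : ℕ) (Γ : Type) [Group Γ] : Prop := Nonempty (Γ ≃* FreeGroup (Fin b)) ∨ Low b Γ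

theorem Alt.fd (hF : D_free) {a b : ℕ} {Γ : Type} [Group Γ] {A C : Subgroup Γ} (h : FD Γ A C)
    (hA : Alt a A) (hB : Alt b C) : Alt (a + b) Γ := by
  rcases hA with ⟨⟨f⟩⟩ | hA
  · rcases hB with ⟨⟨f'⟩⟩ | hB
    · exact Or.inl (free_of_fd hF h f f')
    · right
      rw [low_iff] at hB ⊢
      obtain ⟨c, hc, hB⟩ := hB
      exact ⟨a + c, by omega, Lw.fd h ((lw_free a).of_equiv f.symm) hB⟩
  · right
    rw [low_iff] at hA
    obtain ⟨c, hc, hA⟩ := hA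
    rw [low_iff]
    rcases hB with ⟨⟨f'⟩⟩ | hB
    · exact ⟨c + b, by omega, Lw.fd h hA ((lw_free b).of_equiv f'.symm)⟩
    · rw [low_iff] at hB
      obtain ⟨c', hc', hB⟩ := hB
      exact ⟨c + c', by omega, Lw.fd h hA hB⟩

/-! ## The final alternative for one factor -/

theorem low_of_fin1 {b : ℕ} {Γ : Type} [Group Γ] (hb : 2 ≤ b) (h : Fin1 b Γ) : Low b Γ := by
  obtain ⟨d, k₀, hd, hk₀, h⟩ := h
  refine ⟨1, d, k₀ * 2 ^ d, by omega, Nat.mul_pos hk₀ (by positivity), fun k hk hdv h2 => ?_⟩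
  obtain ⟨a, ha⟩ := h d k hk hdv
  have h3 : ((2 : ℤ) ^ (k + d)) ∣ 2 ^ k * (2 ^ (d + 1) * a + sgn b * d) := by
    rw [← ha]
    rw [one_mul] at h2
    exact_mod_cast h2
  rw [pow_add, mul_dvd_mul_iff_left (by positivity)] at h3
  have h4 : (2 : ℤ) ^ d ∣ sgn b * d := by
    have h5 : (2 : ℤ) ^ d ∣ 2 ^ (d + 1) * a := Dvd.intro _ (by rw [pow_succ, mul_assoc])
    exact (dvd_add_right h5).mp h3
  have h6 : (2 : ℤ) ^ d ∣ d := by
    have h7 : IsUnit (sgn b) := by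
      unfold sgn
      exact (isUnit_one.neg).pow _
    exact (h7.dvd_mul_left).mp h4
  have h8 : 2 ^ d ∣ d := by exact_mod_cast h6
  have h9 := Nat.le_of_dvd hd h8
  exact absurd (Nat.lt_two_pow_self (n := d)) (by omega)

theorem fin1_of_T (hN : I_N) (hT : D_T) {b : ℕ} {Γ K F : Type} [Group Γ] [Field K] [Field F]
    [Algebra (ZMod 2) K] [Algebra (ZMod 2) F] [Algebra K F] {T : Γ → K}
    {ρ : Γ →* Matrix.SpecialLinearGroup (Fin 2) F} (h : Blk b Γ K F T ρ) : Fin1 b Γ := by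
  classical
  obtain ⟨y, Φ, k₁, hy, hk₁, hΦ, hne, hc⟩ := hT b Γ K F T ρ h
  obtain ⟨e, he⟩ : ∃ e : ℤ, (AtOne T y ∧ e = 1) ∨ (¬ AtOne T y ∧ e = 0) := by
    by_cases hA : AtOne T y
    · exact ⟨1, Or.inl ⟨hA, rfl⟩⟩
    · exact ⟨0, Or.inr ⟨hA, rfl⟩⟩
  rcases hN b Γ K F T ρ h.two h.hb Φ hΦ y e hy he with h1 | ⟨d, k₀, hd, hk₀, h1⟩
  · exact absurd h1 hne
  refine ⟨d, k₀ * k₁, hd, Nat.mul_pos hk₀ hk₁, fun i k hk hdv => ?_⟩
  obtain ⟨a, ha⟩ := h1 i k hk (dvd_trans (mul_dvd_mul_right (Dvd.intro _ rfl) _) hdv)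
  obtain ⟨a', ha'⟩ := hc k hk (dvd_trans (Dvd.intro_left k₀ rfl) (dvd_trans (Dvd.intro _ rfl) hdv))
  have hki : i + 1 ≤ k := by
    have h2 : 2 ^ i ∣ k := dvd_trans (Dvd.intro_left _ rfl) hdv
    have h3 := Nat.le_of_dvd hk h2
    have h4 := Nat.lt_two_pow_self (n := i)
    omega
  obtain ⟨j, rfl⟩ : ∃ j, k = i + 1 + j := ⟨k - (i + 1), by omega⟩
  obtain ⟨b', rfl⟩ : ∃ b', b = b' + 2 := ⟨b - 2, by have := h.two; omega⟩
  set q : ℤ := 2 ^ (i + 1 + j) with hq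
  have hq' : q = 2 ^ (i + 1) * 2 ^ j := by rw [hq, pow_add]
  refine ⟨a + 2 ^ j * (a' + e * ((q ^ 2 - 1) ^ 2 * (q ^ 3 - q) ^ b')), ?_⟩
  have h2 : (hh Γ (i + 1 + j) : ℤ) = q * (2 ^ (i + 1) * a + sgn (b' + 2) * d) +
      e * (q ^ 3 - q) ^ (b' + 2) + q ^ 2 * a' := by
    linarith
  rw [h2]
  have h3 : e * (q ^ 3 - q) ^ (b' + 2) = q * (q * (e * ((q ^ 2 - 1) ^ 2 * (q ^ 3 - q) ^ b'))) := by
    rw [pow_add]
    ring
  rw [h3]
  have h4 : q ^ 2 * a' = q * (q * a') := by ring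
  rw [h4]
  have h5 : ∀ t : ℤ, q * (q * t) = q * (2 ^ (i + 1) * (2 ^ j * t)) := by
    intro t
    have h6 : q * t = 2 ^ (i + 1) * (2 ^ j * t) := by rw [hq', mul_assoc]
    rw [h6]
  rw [h5 (e * _), h5 a']
  ring

/-! ## The decomposition and the end -/

theorem alt (h1 : D_fac) (hF : D_free) (h2 : D_zero) (h3 : D_ab) (h4 : D_HB) (hN : I_N)
    (hT : D_T) :
    ∀ (b : ℕ) (Γ : Type) [Group Γ], InCls b Γ → Alt b Γ := by
  intro b
  induction b using Nat.strong_induction_on with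
  | _ b ih =>
    intro Γ _ hΓ
    by_cases hab : Ab Γ
    · exact Or.inl (h3 b Γ hΓ hab)
    by_cases hfi : FI Γ
    · right
      obtain ⟨F, i1, i2, ρ, hC⟩ := hΓ
      obtain ⟨hb, K, i3, i4, i5, T, hHB⟩ := h4 b Γ F ρ hC hab
      exact low_of_fin1 hb (fin1_of_T hN hT ⟨hC, hHB, hb, hfi, hab⟩)
    · unfold FI at hfi
      push Not at hfi
      obtain ⟨A, C, e, hA, hB⟩ := hfi
      obtain ⟨b₁, b₂, hbb, hA', hB'⟩ := h1 b Γ A C hΓ e
      have hb₁ : b₁ ≠ 0 := by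
        rintro rfl
        exact hA (have := h2 A hA'; Subgroup.eq_bot_of_subsingleton A)
      have hb₂ : b₂ ≠ 0 := by
        rintro rfl
        exact hB (have := h2 C hB'; Subgroup.eq_bot_of_subsingleton C)
      have := Alt.fd hF e (ih b₁ (by omega) A hA') (ih b₂ (by omega) C hB')
      rwa [hbb] at this

/-- The reduction of the theorem to the blocks. -/
theorem top (h0 : D_cls) (h1 : D_fac) (hF : D_free) (h2 : D_zero) (h3 : D_ab) (h4 : D_HB) (hN : I_N)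
    (hT : D_T) (r : ℕ) : ProfinitelyRigid (FreeGroup (Fin r)) := by
  intro Λ _ hΛ
  have i1 : Group.FG Λ := hΛ.1
  have i2 : Group.ResiduallyFinite Λ := hΛ.2.1
  obtain ⟨Γ, i3, π, hπ, hΓ, hc⟩ := h0 r Λ hΛ.2.2
  have hfree : Nonempty (Γ ≃* FreeGroup (Fin r)) := by
    rcases alt h1 hF h2 h3 h4 hN hT r Γ hΓ with h | ⟨c, V, k₀, hcr, hk₀, h⟩
    · exact h
    · exfalso
      have hk : 1 ≤ k₀ * (V + 1) := Nat.mul_pos hk₀ (Nat.succ_pos V)
      refine h (k₀ * (V + 1)) hk (Dvd.intro _ rfl) ?_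
      have hf : Finite (GaloisField 2 (k₀ * (V + 1))) := Nat.finite_of_card_ne_zero (by
        rw [card_GF hk]; positivity)
      rw [hc _ hk, hh_free, card_SL, card_GF hk, mul_pow, ← pow_mul]
      refine Dvd.dvd.mul_right (pow_dvd_pow 2 ?_) _
      nlinarith [Nat.le_of_dvd hk (Dvd.intro_left k₀ rfl : V + 1 ∣ k₀ * (V + 1)),
        Nat.mul_le_mul_right (k₀ * (V + 1)) hcr]
  obtain ⟨f⟩ := hfree
  let ψ : Λ →* FreeGroup (Fin r) := f.toMonoidHom.comp π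
  have hψ : Function.Surjective ψ := f.surjective.comp hπ
  exact ⟨MulEquiv.ofBijective ψ ⟨injective_of_surj hΛ.2.2 ψ hψ, hψ⟩⟩

end Pool.Agent.FrAsm
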