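import Pool.Agent.Lib.MP_305fdd_al.Fr.Asm.Stm
import Pool.Agent.Lib.MP_305fdd_al.Fr.S.Defs
import Pool.Agent.Lib.MP_305fdd_al.Fr.F.Base
import Mathlib.RingTheory.Polynomial.Dickson

/-!
# MP_305fdd_al, F_r project, assembly: the parts of the theorem (T)

The splitting `S` is minimal (`Smin`), `y` is the product of the safe elements of the cyclic edges
(`SafeProd`).  `D_DIV`, `D_NSG`, `D_CNT`, `D_LAU` are the outputs of the blocks; `D_T` is derived from
them in `AsmT.lean`.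
-/

set_option autoImplicit false

namespace Pool.Agent.FrAsm

open Pool.Agent.FrN Pool.Agent.MP_305fdd_al Pool.Agent.F2RF Pool.Agent.F2Ch Pool.Agent.FrS

section defs

variable {Γ K F : Type} [Group Γ] [Field K] [Algebra (ZMod 2) K] [Field F] [Algebra (ZMod 2) F]

/-- the ring of the traces of the vertex groups (in the trace field `K`) -/
def BV (T : Γ → K) (S : GG Γ) : Subalgebra (ZMod 2) K :=
  Algebra.adjoin (ZMod 2) (T '' {x | ∃ v, x ∈ S.G v})

/-- the field of the traces of the vertex groups -/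
def KV (T : Γ → K) (S : GG Γ) : IntermediateField (ZMod 2) K :=
  IntermediateField.adjoin (ZMod 2) (T '' {x | ∃ v, x ∈ S.G v})

/-- `B[1 / y]` -/
def ly (B : Subalgebra (ZMod 2) K) (y : K) : Subalgebra (ZMod 2) K :=
  Algebra.adjoin (ZMod 2) (insert y⁻¹ (B : Set K))

/-- `B[1 / y]` for the ring of the traces of the vertex groups, as a subring of its field of
fractions -/
def BVy (T : Γ → K) (S : GG Γ) (y : K) : Subalgebra (ZMod 2) (KV T S) :=
  (ly (BV T S) y).comap (KV T S).val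

/-- `S` is an admissible splitting for which first the measure `DD` and then the number of the edges
is minimal. -/
def Smin (ρ : Γ →* Matrix.SpecialLinearGroup (Fin 2) F) (S : GG Γ) : Prop :=
  S.Adm ∧ ∀ S' : GG Γ, S'.Adm → DD ρ S < DD ρ S' ∨
    (DD ρ S = DD ρ S' ∧ Fintype.card S.E ≤ Fintype.card S'.E)

/-- `e` is a root leaf: it is the only edge at its end `x`, the group of `x` is generated by `w`, the
edge group is generated by `w ^ m`, `m ≥ 2` (up to the coordinates). -/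
def RL (S : GG Γ) (e : S.E) (w : Γ) (m : ℕ) : Prop :=
  2 ≤ m ∧ S.a e ≠ S.b e ∧
  ((S.Leaf (S.b e) e ∧ S.G (S.b e) = Subgroup.zpowers w ∧
    S.C e = Subgroup.zpowers (S.s e * w ^ m * (S.s e)⁻¹)) ∨
  (S.Leaf (S.a e) e ∧ S.G (S.a e) = Subgroup.zpowers w ∧ S.C e = Subgroup.zpowers (w ^ m)))

/-- The safe elements of the cyclic edge `e`.  For a root leaf `⟨w ^ m⟩ < ⟨w⟩`, `m` odd, it is `P (T w)`
where `P ^ 2 X` is the Dickson polynomial (`T (w ^ m) = P (T w) ^ 2 T w`). -/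
inductive SafeEl (T : Γ → K) (S : GG Γ) (e : S.E) : K → Prop
  | tr (z : Γ) (hz : S.C e = Subgroup.zpowers z) (h : ¬ ∃ w m, RL S e w m) : SafeEl T S e (T z)
  | ev (w : Γ) (m : ℕ) (h : RL S e w m) (hm : Even m) : SafeEl T S e (T w)
  | od (w : Γ) (m : ℕ) (h : RL S e w m) (hm : Odd m) (P : Polynomial (ZMod 2))
      (hP : P ^ 2 * Polynomial.X = Polynomial.dickson 1 1 m) :
      SafeEl T S e (Polynomial.aeval (T w) P)

/-- `e` is a cyclic edge -/
def Cyc (S : GG Γ) (e : S.E) : Prop := ∃ z, S.C e = Subgroup.zpowers z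

/-- `y` is the product of safe elements, one for every cyclic edge -/
def SafeProd (T : Γ → K) (S : GG Γ) (y : K) : Prop :=
  ∃ f : S.E → K, (∀ e, Cyc S e → SafeEl T S e (f e)) ∧ (∀ e, ¬ Cyc S e → f e = 1) ∧ y = ∏ e, f e

end defs

/-- TOP / DIV: only the neutral element has trace zero. -/
def D_DIV : Prop :=
  ∀ (b : ℕ) (Γ F : Type) [Group Γ] [Field F] [Algebra (ZMod 2) F]
    (ρ : Γ →* Matrix.SpecialLinearGroup (Fin 2) F), Cls b Γ F ρ →
    ∀ g : Γ, (ρ g).1.trace = 0 → g = 1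

/-- SP (NSG): there is no semi-good valuation on the localised ring of the traces of the vertex groups of
a minimal splitting. -/
def D_NSG : Prop :=
  ∀ (b : ℕ) (Γ K F : Type) [Group Γ] [Field K] [Field F] [Algebra (ZMod 2) K]
    [Algebra (ZMod 2) F] [Algebra K F] (T : Γ → K)
    (ρ : Γ →* Matrix.SpecialLinearGroup (Fin 2) F), Blk b Γ K F T ρ →
    ∀ S : GG Γ, Smin ρ S → ∀ y : K, SafeProd T S y →
    ¬ ∃ x : KV T S → ℝ, IsV x ∧ Triv (ZMod 2) x ∧ (∃ z, x z ≠ 0) ∧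
      ∀ z ∈ BVy T S y, z ≠ 0 → x z ≤ 0

/-- COUNT: the number of the representations at which a safe element vanishes is divisible by
`q ^ 2`. -/
def D_CNT : Prop :=
  ∀ (b : ℕ) (Γ K F : Type) [Group Γ] [Field K] [Field F] [Algebra (ZMod 2) K]
    [Algebra (ZMod 2) F] [Algebra K F] (T : Γ → K)
    (ρ : Γ →* Matrix.SpecialLinearGroup (Fin 2) F), Blk b Γ K F T ρ →
    ∀ S : GG Γ, Smin ρ S → ∀ y : K, SafeProd T S y →
    ∃ k₁ : ℕ, 1 ≤ k₁ ∧ ∀ k, 1 ≤ k → k₁ ∣ k →
      ∃ a : ℤ, (hh Γ k : ℤ) - cnt (K := K) ρ y k = (2 ^ k) ^ 2 * a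

/-- LAU + FORM: the property `PropQ` (no nilpotence) passes from the vertex groups to `Γ`. -/
def D_LAU : Prop :=
  ∀ (b : ℕ) (Γ K F : Type) [Group Γ] [Field K] [Field F] [Algebra (ZMod 2) K]
    [Algebra (ZMod 2) F] [Algebra K F] (T : Γ → K)
    (ρ : Γ →* Matrix.SpecialLinearGroup (Fin 2) F), Blk b Γ K F T ρ →
    ∀ S : GG Γ, Smin ρ S → ∀ y : K, y ∈ BV T S → y ≠ 0 →
    FrF.PropQ 2 (BVy T S y).toSubring → FrF.PropQ 2 (ly (BB 2 T) y).toSubring

end Pool.Agent.FrAsm
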