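import Pool.Agent.Lib.MP_305fdd_al.Fr.N.Defs

/-!
# MP_305fdd_al, F_r project, assembly: definitions

The class of groups `Cls b` (characteristic two): finitely generated groups with a faithful universal
representation over the field of fractions of the (integral) representation ring, smooth of dimension
`3 b`, where `2 ^ b` is the number of the homomorphisms to the group of order two.
-/

set_option autoImplicit false

namespace Pool.Agent.FrAsm

open Pool.Agent.FrN

/-- `ρ` is a faithful representation of the finitely generated group `Γ` over the field `F`, `F` is the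
field of fractions of the ring `OO 2 ρ` generated by the entries of `ρ`, and every representation of
`Γ` over a commutative `F_2`-algebra is a specialisation of `ρ`. -/
structure Uv (Γ F : Type) [Group Γ] [Field F] [Algebra (ZMod 2) F]
    (ρ : Γ →* Matrix.SpecialLinearGroup (Fin 2) F) : Prop where
  fg : Group.FG Γ
  inj : Function.Injective ρ
  frac : Frc (OO 2 ρ)
  univ : ∀ (R : Type) [CommRing R] [Algebra (ZMod 2) R]
    (r : Γ →* Matrix.SpecialLinearGroup (Fin 2) R),
    ∃ φ : OO 2 ρ →ₐ[ZMod 2] R, ∀ g i j, φ ⟨(ρ g).1 i j, mem_OO ρ g i j⟩ = (r g).1 i j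

/-- The class of groups: `ρ` is a faithful universal representation, smooth of dimension `3 b` (`sm`:
the exact number of the lifts of a representation over a finite ring along a square zero ideal). -/
structure Cls (b : ℕ) (Γ F : Type) [Group Γ] [Field F] [Algebra (ZMod 2) F]
    (ρ : Γ →* Matrix.SpecialLinearGroup (Fin 2) F) : Prop extends Uv Γ F ρ where
  trF : Algebra.trdeg (ZMod 2) F = 3 * b
  ab : Nat.card (Γ →* Multiplicative (ZMod 2)) = 2 ^ b
  sm : ∀ (R : Type) [CommRing R] [Finite R] [Algebra (ZMod 2) R] (I : Ideal R), I ^ 2 = ⊥ →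
    ∀ r : Γ →* Matrix.SpecialLinearGroup (Fin 2) (R ⧸ I),
    Nat.card {s : Γ →* Matrix.SpecialLinearGroup (Fin 2) R //
      (Matrix.SpecialLinearGroup.map (Ideal.Quotient.mk I)).comp s = r} = Nat.card I ^ (3 * b)

/-- `Γ` is in the class `Cls b` for some field and some representation. -/
def InCls (b : ℕ) (Γ : Type) [Group Γ] : Prop :=
  ∃ (F : Type) (_ : Field F) (_ : Algebra (ZMod 2) F)
    (ρ : Γ →* Matrix.SpecialLinearGroup (Fin 2) F), Cls b Γ F ρ

/-- the number of the representations of `Γ` over the field with `2 ^ k` elements -/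
noncomputable def hh (Γ : Type) [Group Γ] (k : ℕ) : ℕ :=
  Nat.card (Γ →* Matrix.SpecialLinearGroup (Fin 2) (GaloisField 2 k))

/-- `Γ` is generated by `A` and `C`, and representations of `A` and `C` over a commutative
`F_2`-algebra come from a representation of `Γ` (a free decomposition, as far as representations are
concerned). -/
structure FD (Γ : Type) [Group Γ] (A C : Subgroup Γ) : Prop where
  gen : A ⊔ C = ⊤
  ext : ∀ (R : Type) [CommRing R] [Algebra (ZMod 2) R]
    (a : A →* Matrix.SpecialLinearGroup (Fin 2) R) (c : C →* Matrix.SpecialLinearGroup (Fin 2) R),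
    ∃ r : Γ →* Matrix.SpecialLinearGroup (Fin 2) R, (∀ x : A, r x = a x) ∧ ∀ x : C, r x = c x

/-- `Γ` has no free decomposition with two nontrivial factors. -/
def FI (Γ : Type) [Group Γ] : Prop := ∀ A C : Subgroup Γ, FD Γ A C → A = ⊥ ∨ C = ⊥

/-- `Γ` is commutative -/
def Ab (Γ : Type) [Group Γ] : Prop := ∀ g h : Γ, g * h = h * g

/-- `Γ` is a freely indecomposable nonabelian group with the universal representation `ρ` of
dimension `3 b` and the trace field `K`, with values of the trace `T`. -/
structure Blk (b : ℕ) (Γ K F : Type) [Group Γ] [Field K] [Field F] [Algebra (ZMod 2) K]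
    [Algebra (ZMod 2) F] [Algebra K F] (T : Γ → K)
    (ρ : Γ →* Matrix.SpecialLinearGroup (Fin 2) F) : Prop where
  cls : Cls b Γ F ρ
  hb : HB 2 b Γ K F T ρ
  two : 2 ≤ b
  fi : FI Γ
  nab : ¬ Ab Γ

/-- the elementary numerical form of the final alternative -/
def Fin1 (b : ℕ) (Γ : Type) [Group Γ] : Prop :=
  ∃ d k₀ : ℕ, 1 ≤ d ∧ 1 ≤ k₀ ∧ ∀ i k : ℕ, 1 ≤ k → k₀ * 2 ^ i ∣ k →
    ∃ a : ℤ, (hh Γ k : ℤ) = 2 ^ k * (2 ^ (i + 1) * a + sgn b * d)

/-- the valuation of the number of representations is smaller than for the free group of rank `b` -/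
def Low (b : ℕ) (Γ : Type) [Group Γ] : Prop :=
  ∃ c V k₀ : ℕ, c < b ∧ 1 ≤ k₀ ∧ ∀ k : ℕ, 1 ≤ k → k₀ ∣ k → ¬ 2 ^ (c * k + V) ∣ hh Γ k

end Pool.Agent.FrAsm
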