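import Pool.Agent.Lib.MP_305fdd_al.Fr.Asm.Defs
import Pool.Agent.Lib.MP_305fdd_al.Fr.N.Int
import Pool.Agent.Lib.MP_305fdd_al.Defs

/-!
# MP_305fdd_al, F_r project, assembly: the statements which are combined in `Top.lean`

`D_cls`, `D_fac`, `D_free`, `D_zero`, `D_ab`, `D_HB`: block TOP.  `I_N`: block N.  `D_T`: the theorem (T)
(splittings, count, form).
-/

set_option autoImplicit false

namespace Pool.Agent.FrAsm

open Pool.Agent.FrN Pool.Agent.MP_305fdd_al Pool.Agent.F2RF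

/-- TOP: a finitely generated group with the finite quotients of the free group of rank `r` has a
quotient in the class `Cls r`, with the same number of representations. -/
def D_cls : Prop :=
  ∀ (r : ℕ) (Λ : Type) [Group Λ] [Group.FG Λ], SameFiniteQuotients Λ (FreeGroup (Fin r)) →
    ∃ (Γ : Type) (_ : Group Γ) (π : Λ →* Γ), Function.Surjective π ∧ InCls r Γ ∧
      ∀ k, 1 ≤ k → hh Γ k = hh (FreeGroup (Fin r)) k

/-- TOP: free factors -/
def D_fac : Prop :=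
  ∀ (b : ℕ) (Γ : Type) [Group Γ] (A C : Subgroup Γ), InCls b Γ → FD Γ A C →
    ∃ b₁ b₂, b₁ + b₂ = b ∧ InCls b₁ A ∧ InCls b₂ C

/-- TOP: faithful representations of free groups in characteristic two -/
def D_free : Prop :=
  ∀ r : ℕ, ∃ (R : Type) (_ : CommRing R) (_ : Algebra (ZMod 2) R)
    (f : FreeGroup (Fin r) →* Matrix.SpecialLinearGroup (Fin 2) R), Function.Injective f

/-- TOP: dimension zero -/
def D_zero : Prop := ∀ (Γ : Type) [Group Γ], InCls 0 Γ → Subsingleton Γ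

/-- TOP: abelian groups in the class -/
def D_ab : Prop :=
  ∀ (b : ℕ) (Γ : Type) [Group Γ], InCls b Γ → Ab Γ → Nonempty (Γ ≃* FreeGroup (Fin b))

/-- TOP: the trace field and the class `HB` -/
def D_HB : Prop :=
  ∀ (b : ℕ) (Γ F : Type) [Group Γ] [Field F] [Algebra (ZMod 2) F]
    (ρ : Γ →* Matrix.SpecialLinearGroup (Fin 2) F), Cls b Γ F ρ → ¬ Ab Γ →
    2 ≤ b ∧ ∃ (K : Type) (_ : Field K) (_ : Algebra (ZMod 2) K) (_ : Algebra K F) (T : Γ → K),
      HB 2 b Γ K F T ρ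

/-- THEOREM (T): on the open set `y ≠ 0` the Cartier operator is not nilpotent, and the number of the
representations with `y = 0` is divisible by `q ^ 2`. -/
def D_T : Prop :=
  ∀ (b : ℕ) (Γ K F : Type) [Group Γ] [Field K] [Field F] [Algebra (ZMod 2) K]
    [Algebra (ZMod 2) F] [Algebra K F] (T : Γ → K)
    (ρ : Γ →* Matrix.SpecialLinearGroup (Fin 2) F), Blk b Γ K F T ρ →
    ∃ (y : BB 2 T) (Φ : K → K) (k₁ : ℕ), y ≠ 0 ∧ 1 ≤ k₁ ∧ LogTy 2 Φ ∧
      (¬ ∃ c ∈ BB 2 T, c ≠ 0 ∧ ∀ β ∈ BB 2 T, ∀ a : ℕ, ∃ e : ℕ,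
        Φ^[e] (c * (β / (y : K) ^ a)) = 0) ∧
      ∀ k, 1 ≤ k → k₁ ∣ k → ∃ a : ℤ, (hh Γ k : ℤ) - cnt (K := K) ρ y k = (2 ^ k) ^ 2 * a

end Pool.Agent.FrAsm
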