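import Pool.Agent.Lib.MP_305fdd_al.Fr.Asm.AsmT
import Pool.Agent.Lib.MP_305fdd_al.Fr.Asm.Top
import Pool.Agent.Lib.MP_305fdd_al.Fr.C.Final
import Pool.Agent.Lib.MP_305fdd_al.Fr.C.B2
import Pool.Agent.Lib.MP_305fdd_al.Fr.S.Norm

/-!
# MP_305fdd_al, F_r project, assembly: the count of the representations at which a safe element vanishes
-/

set_option autoImplicit false

namespace Pool.Agent.FrAsm

open Pool.Agent.FrN Pool.Agent.FrS Pool.Agent.FrC Polynomial

/-! ## Dickson polynomials -/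

theorem dickson_coeff_zero (n : ℕ) : (dickson 1 (1 : ZMod 2) n).coeff 0 = 0 := by
  induction n using Nat.twoStepInduction with
  | zero =>
    rw [dickson_zero]
    norm_num
    decide
  | one => simp [dickson_one]
  | more n h1 _ =>
    rw [dickson_add_two, coeff_sub, mul_coeff_zero, coeff_X_zero, zero_mul, map_one, one_mul, h1,
      sub_zero]

theorem dickson_coeff_one (n : ℕ) : (dickson 1 (1 : ZMod 2) (2 * n + 1)).coeff 1 = 1 := by
  induction n with
  | zero => simp [dickson_one]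
  | succ n ih =>
    have e : 2 * (n + 1) + 1 = 2 * n + 1 + 2 := by ring
    rw [e, dickson_add_two, coeff_sub, map_one, one_mul, ih, mul_comm, coeff_mul_X,
      dickson_coeff_zero]
    decide

theorem sqrt_coeff {P : (ZMod 2)[X]} {m : ℕ} (hm : Odd m)
    (hP : P ^ 2 * X = dickson 1 (1 : ZMod 2) m) : P.coeff 0 ≠ 0 := by
  obtain ⟨n, rfl⟩ := hm
  intro h
  have h1 := dickson_coeff_one n
  rw [← hP, coeff_mul_X, sq, mul_coeff_zero, h, zero_mul] at h1
  exact zero_ne_one h1

theorem tr_pow_SL {R : Type} [CommRing R] [Algebra (ZMod 2) R]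
    (A : Matrix.SpecialLinearGroup (Fin 2) R) (m : ℕ) :
    (A ^ m).1.trace = aeval A.1.trace (dickson 1 (1 : ZMod 2) m) := by
  induction m using Nat.twoStepInduction with
  | zero =>
    rw [pow_zero, dickson_zero]
    norm_num
    exact (map_ofNat (aeval A.1.trace) 2).symm
  | one => rw [pow_one, dickson_one, aeval_X]
  | more n h1 h2 =>
    rw [dickson_add_two, map_one, one_mul, map_sub, map_mul, aeval_X, ← h1, ← h2]
    have h3 := tr_rel (A ^ (n + 1)) A
    have h4 : A ^ (n + 1) * A = A ^ (n + 2) := (pow_succ A (n + 1)).symm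
    have h5 : A ^ (n + 1) * A⁻¹ = A ^ n := by rw [pow_succ, mul_inv_cancel_right]
    rw [h4, h5] at h3
    linear_combination h3

/-! ## Safe elements are safe -/

section safe

variable {b : ℕ} {Γ K F : Type} [Group Γ] [Field K] [Field F] [Algebra (ZMod 2) K]
    [Algebra (ZMod 2) F] [Algebra K F] {T : Γ → K} {ρ : Γ →* Matrix.SpecialLinearGroup (Fin 2) F}

theorem zpow_inf (H : Blk b Γ K F T ρ) {w : Γ} (hw : w ≠ 1) (k : ℤ) (hk : w ^ k = 1) : k = 0 := by
  by_contra h0
  have h1 : w ^ k.natAbs = 1 := by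
    rcases Int.natAbs_eq k with h | h
    · rw [h, zpow_natCast] at hk
      exact hk
    · rw [h, zpow_neg, inv_eq_one, zpow_natCast] at hk
      exact hk
  exact hw (FrTop.tf H.cls (Int.natAbs_ne_zero.mpr h0) h1)

theorem RL.safeE (H : Blk b Γ K F T ρ) {S : GG Γ} (hS : Smin ρ S) {e : S.E} {w : Γ} {m : ℕ}
    (h : RL S e w m) {κ : Type} [Field κ] {D : κ → Prop}
    (hD : ∀ h : S2 κ, D h.1.trace → h ^ m = 1) : SafeE S κ e w D := by
  have hT := tor_cls H.cls
  have hw : w ≠ 1 := by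
    rintro rfl
    exact h.ne hS.1 (one_pow m)
  have hinf := zpow_inf H hw
  obtain ⟨_, hne, h3⟩ := h
  rcases h3 with ⟨hl, hG, hC⟩ | ⟨hl, hG, hC⟩
  · refine SafeE.rootb m hne hl hG hinf hC hD ⟨S.a e, Rch.refl _, ?_⟩
    rcases smin_edge hT hS e hne with h4 | h4
    · exact h4
    · refine absurd ?_ h4
      intro x hx y hy
      rw [hG] at hx hy
      obtain ⟨i, rfl⟩ := hx
      obtain ⟨j, rfl⟩ := hy
      exact zpow_mul_comm w i j
  · refine SafeE.roota m hne hl hG hinf hC hD ⟨S.b e, Rch.refl _, ?_⟩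
    rcases smin_edge hT hS e hne with h4 | h4
    · refine absurd ?_ h4
      intro x hx y hy
      rw [hG] at hx hy
      obtain ⟨i, rfl⟩ := hx
      obtain ⟨j, rfl⟩ := hy
      exact zpow_mul_comm w i j
    · exact h4

theorem SafeEl.data (H : Blk b Γ K F T ρ) {S : GG Γ} (hS : Smin ρ S) {e : S.E} (hc : Cyc S e)
    {f : K} (h : SafeEl T S e f) : ∃ (g : Γ) (P : (ZMod 2)[X]), f = aeval (T g) P ∧
      ∀ (κ : Type) [Field κ] [Algebra (ZMod 2) κ] [Finite κ],
        SafeE S κ e g (fun t => aeval t P = 0) := by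
  cases h with
  | tr z hz hr =>
    refine ⟨z, X, (aeval_X _).symm, fun κ _ _ _ => ?_⟩
    refine SafeE.edge hz (fun t => by rw [aeval_X]) ?_ ?_
    · rcases smin_side_a H hS e hc hr with h1 | ⟨e', he', ⟨h1, h2⟩ | ⟨h1, h2⟩⟩
      · exact ⟨_, Rch.refl _, h1⟩
      · refine ⟨S.b e', ?_, h2⟩
        have h3 : Rch (del S e) (S.a e) ((del S e).a ⟨e', he'⟩) := by
          rw [show (del S e).a ⟨e', he'⟩ = S.a e from h1]
          exact Rch.refl _
        exact h3.fwd
      · refine ⟨S.a e', ?_, h2⟩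
        have h3 : Rch (del S e) (S.a e) ((del S e).b ⟨e', he'⟩) := by
          rw [show (del S e).b ⟨e', he'⟩ = S.a e from h1]
          exact Rch.refl _
        exact h3.bwd
    · rcases smin_side_b H hS e hc hr with h1 | ⟨e', he', ⟨h1, h2⟩ | ⟨h1, h2⟩⟩
      · exact ⟨_, Rch.refl _, h1⟩
      · refine ⟨S.b e', ?_, h2⟩
        have h3 : Rch (del S e) (S.b e) ((del S e).a ⟨e', he'⟩) := by
          rw [show (del S e).a ⟨e', he'⟩ = S.b e from h1]
          exact Rch.refl _
        exact h3.fwd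
      · refine ⟨S.a e', ?_, h2⟩
        have h3 : Rch (del S e) (S.b e) ((del S e).b ⟨e', he'⟩) := by
          rw [show (del S e).b ⟨e', he'⟩ = S.b e from h1]
          exact Rch.refl _
        exact h3.bwd
  | ev w m h hm =>
    refine ⟨w, X, (aeval_X _).symm, fun κ _ _ _ => ?_⟩
    have : CharP κ 2 := charP_of_injective_algebraMap (algebraMap (ZMod 2) κ).injective 2
    refine RL.safeE H hS h fun A hA => ?_
    rw [aeval_X] at hA
    exact pow_eq_one_of_tr_zero hm A hA
  | od w m h hm P hP =>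
    refine ⟨w, P, rfl, fun κ _ _ _ => ?_⟩
    have : CharP κ 2 := charP_of_injective_algebraMap (algebraMap (ZMod 2) κ).injective 2
    refine RL.safeE H hS h fun A hA => ?_
    refine pow_eq_one_of_tr_pow A ?_ ?_
    · rw [tr_pow_SL, ← hP, map_mul, map_pow, hA, zero_pow two_ne_zero, zero_mul]
    · intro h0
      rw [h0, ← coeff_zero_eq_aeval_zero'] at hA
      refine sqrt_coeff hm hP ?_
      exact (map_eq_zero (algebraMap (ZMod 2) κ)).mp hA

/-- The number of the representations at which a safe element vanishes. -/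
theorem cnt_dvd (H : Blk b Γ K F T ρ) {S : GG Γ} (hS : Smin ρ S) {g : S.E → Γ}
    {P : S.E → (ZMod 2)[X]}
    (hs : ∀ (κ : Type) [Field κ] [Algebra (ZMod 2) κ] [Finite κ], ∀ e, Cyc S e →
      SafeE S κ e (g e) (fun t => aeval t (P e) = 0)) (hn : ∀ e, ¬ Cyc S e → P e = 1)
    {k : ℕ} (hk : 1 ≤ k) :
    (2 ^ k) ^ 2 ∣ Nat.card {r : Γ →* Matrix.SpecialLinearGroup (Fin 2) (GaloisField 2 k) //
      ∃ i, aeval ((r (g i)).1.trace) (P i) = 0} := by
  have hf : Finite (GaloisField 2 k) := Nat.finite_of_card_ne_zero (by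
    rw [card_GF hk]; positivity)
  have hfg : Group.FG Γ := H.cls.fg
  have h1 := countS (F := GaloisField 2 k) (S := S) (E₀ := {e | Cyc S e}) (g := g)
    (D := fun e t => aeval t (P e) = 0) hS.1.toUP hS.1.fgV
    (fun A _ f hxy => exists_two_HB H.hb f (by
      obtain ⟨x, y, hxy⟩ := hxy
      refine ⟨x, y, fun h => hxy (H.cls.inj ?_)⟩
      rw [map_mul, map_mul]
      exact h)) (fun e he => hs (GaloisField 2 k) e he)
  rw [card_GF hk] at h1
  have e : ∀ r : Γ →* Matrix.SpecialLinearGroup (Fin 2) (GaloisField 2 k),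
      (∃ i, aeval ((r (g i)).1.trace) (P i) = 0) ↔
      ∃ e ∈ {e | Cyc S e}, aeval ((r (g e)).1.trace) (P e) = 0 := by
    intro r
    constructor
    · rintro ⟨i, hi⟩
      refine ⟨i, ?_, hi⟩
      by_contra h2
      rw [hn i h2, map_one] at hi
      exact one_ne_zero hi
    · rintro ⟨i, _, hi⟩
      exact ⟨i, hi⟩
  rw [Nat.card_congr (Equiv.subtypeEquivRight e)]
  exact h1

end safe

end Pool.Agent.FrAsm
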