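import Pool.Agent.Lib.MP_305fdd_al.Fr.Asm.StmT
import Pool.Agent.Lib.MP_305fdd_al.Fr.Top.Gr
import Pool.Agent.Lib.MP_305fdd_al.Fr.N.Main3

/-!
# MP_305fdd_al, F_r project, assembly: the number `hh Γ k - cnt ρ y k`

The homomorphisms from `OO 2 ρ` to the field with `2 ^ k` elements are the representations of `Γ`; the
product of the values of polynomials at traces vanishes at a representation if and only if one of the
factors does.
-/

set_option autoImplicit false

namespace Pool.Agent.FrAsm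

open Pool.Agent.FrN Pool.Agent.FrTop Matrix

section conv

variable {Γ K F : Type} [Group Γ] [Field K] [Field F] [Algebra (ZMod 2) K]
  [Algebra (ZMod 2) F] [Algebra K F]

/-- the representation of a homomorphism `OO 2 ρ → R` -/
def repOf (ρ : Γ →* SpecialLinearGroup (Fin 2) F) {R : Type} [CommRing R] [Algebra (ZMod 2) R]
    (φ : OO 2 ρ →ₐ[ZMod 2] R) : Γ →* SpecialLinearGroup (Fin 2) R :=
  (SpecialLinearGroup.map (φ : OO 2 ρ →+* R)).comp (rO ρ)

theorem repOf_apply (ρ : Γ →* SpecialLinearGroup (Fin 2) F) {R : Type} [CommRing R]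
    [Algebra (ZMod 2) R] (φ : OO 2 ρ →ₐ[ZMod 2] R) (g : Γ) (i j : Fin 2) :
    (repOf ρ φ g).1 i j = φ ((rO ρ g).1 i j) := rfl

theorem repOf_bij {ρ : Γ →* SpecialLinearGroup (Fin 2) F} (hU : Uv Γ F ρ) (R : Type) [CommRing R]
    [Algebra (ZMod 2) R] : Function.Bijective (repOf ρ (R := R)) := by
  refine ⟨fun φ ψ h => hom_ext φ ψ fun g i j => ?_, fun r => ?_⟩
  · rw [← repOf_apply, ← repOf_apply, h]
  · obtain ⟨φ, hφ⟩ := hU.univ R r
    refine ⟨φ, MonoidHom.ext fun g => Subtype.ext (Matrix.ext fun i j => ?_)⟩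
    rw [repOf_apply]
    exact hφ g i j

theorem trace_repOf (ρ : Γ →* SpecialLinearGroup (Fin 2) F) {R : Type} [CommRing R]
    [Algebra (ZMod 2) R] (φ : OO 2 ρ →ₐ[ZMod 2] R) (g : Γ) :
    (repOf ρ φ g).1.trace = φ ((rO ρ g).1.trace) := by
  rw [trace_fin_two, trace_fin_two, map_add, repOf_apply, repOf_apply]

theorem conv {T : Γ → K} {ρ : Γ →* Matrix.SpecialLinearGroup (Fin 2) F} (hU : Uv Γ F ρ)
    (hT : ∀ g, (ρ g).1.trace = algebraMap K F (T g)) {ι : Type} [Fintype ι] (g : ι → Γ)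
    (P : ι → Polynomial (ZMod 2)) (k : ℕ) :
    (hh Γ k : ℤ) - cnt (K := K) ρ (∏ i, Polynomial.aeval (T (g i)) (P i)) k =
      Nat.card {r : Γ →* Matrix.SpecialLinearGroup (Fin 2) (GaloisField 2 k) //
        ∃ i, Polynomial.aeval ((r (g i)).1.trace) (P i) = 0} := by
  have hst : IsScalarTower (ZMod 2) K F :=
    IsScalarTower.of_algebraMap_eq' (Subsingleton.elim _ _)
  -- the element of `OO`
  have hy : algebraMap K F (∏ i, Polynomial.aeval (T (g i)) (P i)) =
      ((∏ i, Polynomial.aeval ((rO ρ (g i)).1.trace) (P i) : OO 2 ρ) : F) := by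
    have h1 : ∀ x : OO 2 ρ, (x : F) = (OO 2 ρ).val x := fun _ => rfl
    rw [map_prod, h1, map_prod]
    refine Finset.prod_congr rfl fun i _ => ?_
    rw [← Polynomial.aeval_algebraMap_apply, ← Polynomial.aeval_algHom_apply, ← hT,
      trace_fin_two, trace_fin_two, map_add]
    rfl
  have hφ : ∀ φ : OO 2 ρ →ₐ[ZMod 2] GaloisField 2 k,
      (∃ h : algebraMap K F (∏ i, Polynomial.aeval (T (g i)) (P i)) ∈ OO 2 ρ, φ ⟨_, h⟩ ≠ 0) ↔
        ∀ i, Polynomial.aeval ((repOf ρ φ (g i)).1.trace) (P i) ≠ 0 := by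
    intro φ
    have h1 : ∀ i, Polynomial.aeval ((repOf ρ φ (g i)).1.trace) (P i) =
        φ (Polynomial.aeval ((rO ρ (g i)).1.trace) (P i)) := by
      intro i
      rw [trace_repOf, Polynomial.aeval_algHom_apply]
    have h2 : ∀ h : algebraMap K F (∏ i, Polynomial.aeval (T (g i)) (P i)) ∈ OO 2 ρ,
        φ ⟨_, h⟩ = ∏ i, Polynomial.aeval ((repOf ρ φ (g i)).1.trace) (P i) := by
      intro h
      have h3 : (⟨_, h⟩ : OO 2 ρ) = ∏ i, Polynomial.aeval ((rO ρ (g i)).1.trace) (P i) :=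
        Subtype.ext hy
      rw [h3, map_prod]
      exact Finset.prod_congr rfl fun i _ => (h1 i).symm
    constructor
    · rintro ⟨h, h0⟩ i hi
      apply h0
      rw [h2 h]
      exact Finset.prod_eq_zero (Finset.mem_univ i) hi
    · intro h
      have hm : algebraMap K F (∏ i, Polynomial.aeval (T (g i)) (P i)) ∈ OO 2 ρ := by
        rw [hy]
        exact Subtype.prop _
      refine ⟨hm, ?_⟩
      rw [h2 hm]
      exact Finset.prod_ne_zero_iff.2 fun i _ => h i
  have hfg : Group.FG Γ := hU.fg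
  have hfin : Finite (Γ →* SpecialLinearGroup (Fin 2) (GaloisField 2 k)) :=
    Pool.Agent.MP_305fdd_al.finite_hom Γ _
  have hc : cnt (K := K) ρ (∏ i, Polynomial.aeval (T (g i)) (P i)) k =
      Nat.card {r : Γ →* SpecialLinearGroup (Fin 2) (GaloisField 2 k) //
        ¬ ∃ i, Polynomial.aeval ((r (g i)).1.trace) (P i) = 0} := by
    rw [cnt]
    refine Nat.card_congr ?_
    refine (Equiv.ofBijective _ (repOf_bij hU (GaloisField 2 k))).subtypeEquiv fun φ => ?_
    rw [hφ φ, not_exists]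
    exact Iff.rfl
  have hs : hh Γ k =
      Nat.card {r : Γ →* SpecialLinearGroup (Fin 2) (GaloisField 2 k) //
        ∃ i, Polynomial.aeval ((r (g i)).1.trace) (P i) = 0} +
      Nat.card {r : Γ →* SpecialLinearGroup (Fin 2) (GaloisField 2 k) //
        ¬ ∃ i, Polynomial.aeval ((r (g i)).1.trace) (P i) = 0} := by
    classical
    rw [hh, ← Nat.card_sum]
    exact (Nat.card_congr (Equiv.sumCompl _)).symm
  rw [hc, hs]
  push_cast
  ring

end conv

end Pool.Agent.FrAsm
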