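import Pool.Agent.Lib.MP_305fdd_al.Fr.Asm.Cnt
import Pool.Agent.Lib.MP_305fdd_al.Fr.Asm.Conv

/-!
# MP_305fdd_al, F_r project, assembly: block COUNT, final statement
-/

set_option autoImplicit false

namespace Pool.Agent.FrAsm

open Pool.Agent.FrN Pool.Agent.FrS Pool.Agent.FrC Polynomial

theorem d_CNT : D_CNT := by
  intro b Γ K F _ _ _ _ _ _ T ρ H S hS y hy
  obtain ⟨f, hf1, hf2, rfl⟩ := hy
  have h : ∀ e : S.E, ∃ (g : Γ) (P : (ZMod 2)[X]), f e = aeval (T g) P ∧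
      (Cyc S e → ∀ (κ : Type) [Field κ] [Algebra (ZMod 2) κ] [Finite κ],
        SafeE S κ e g (fun t => aeval t P = 0)) ∧ (¬ Cyc S e → P = 1) := by
    intro e
    by_cases hc : Cyc S e
    · obtain ⟨g, P, h1, h2⟩ := (hf1 e hc).data H hS hc
      exact ⟨g, P, h1, fun _ => h2, fun h => absurd hc h⟩
    · exact ⟨1, 1, by rw [hf2 e hc, map_one], fun h => absurd h hc, fun _ => rfl⟩
  choose g P h1 h2 h3 using h
  refine ⟨1, le_rfl, fun k hk _ => ?_⟩
  obtain ⟨a, ha⟩ := cnt_dvd H hS (fun κ _ _ _ e he => h2 e he κ) h3 hk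
  refine ⟨a, ?_⟩
  have h4 := conv H.cls.toUv H.hb.tr g P k
  simp_rw [← h1] at h4
  rw [h4, ha]
  push_cast
  ring

end Pool.Agent.FrAsm
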