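import Pool.Agent.Lib.MP_305fdd_al.Fr.Asm.Stm

/-!
# MP_305fdd_al, F_r project, assembly: free groups have faithful representations in characteristic two

The elements `U(x ^ (i + 1)) L(x ^ (i + 1))` of `SL_2 (F_2[x])` (`U`, `L` the upper and lower triangular
unipotent matrices) play ping-pong on the nonzero vectors.
-/

set_option autoImplicit false

namespace Pool.Agent.FrAsm

open Polynomial

/-- the ring of polynomials -/
abbrev PR : Type := Polynomial (ZMod 2)

/-- the nonzero vectors -/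
abbrev NV : Type := {v : Fin 2 → PR // v ≠ 0}

noncomputable instance : MulAction (Matrix.SpecialLinearGroup (Fin 2) PR) NV where
  smul g v := ⟨g.1.mulVec v.1, fun h => v.2 (by
    have h1 : (g⁻¹).1.mulVec (g.1.mulVec v.1) = v.1 := by
      rw [Matrix.mulVec_mulVec, ← Matrix.SpecialLinearGroup.coe_mul, inv_mul_cancel,
        Matrix.SpecialLinearGroup.coe_one, Matrix.one_mulVec]
    rw [← h1, h, Matrix.mulVec_zero])⟩
  one_smul v := Subtype.ext (Matrix.one_mulVec v.1)
  mul_smul g h v := Subtype.ext (by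
    change (g * h).1.mulVec v.1 = g.1.mulVec (h.1.mulVec v.1)
    rw [Matrix.mulVec_mulVec, Matrix.SpecialLinearGroup.coe_mul])

theorem smul_val (g : Matrix.SpecialLinearGroup (Fin 2) PR) (v : NV) :
    (g • v).1 = g.1.mulVec v.1 := rfl

/-- `x ^ (i + 1)` -/
noncomputable def ax (i : ℕ) : PR := X ^ (i + 1)

theorem two_eq (p : PR) : p + p = 0 := CharTwo.add_self_eq_zero p

/-- the generators -/
noncomputable def gx (i : ℕ) : Matrix.SpecialLinearGroup (Fin 2) PR :=
  ⟨!![1 + ax i * ax i, ax i; ax i, 1], by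
    rw [Matrix.det_fin_two_of]
    ring⟩

theorem gx_inv (i : ℕ) : (gx i)⁻¹ =
    (⟨!![1, ax i; ax i, 1 + ax i * ax i], by
      rw [Matrix.det_fin_two_of]
      ring⟩ : Matrix.SpecialLinearGroup (Fin 2) PR) := by
  ext j k
  rw [Matrix.SpecialLinearGroup.SL2_inv_expl]
  fin_cases j <;> fin_cases k <;> simp [gx, CharTwo.neg_eq]

/-- first type of sets -/
def XX (i : ℕ) : Set NV := {v | (v.1 0 + ax i * v.1 1).degree < (v.1 1).degree}

/-- second type of sets -/
def YY (i : ℕ) : Set NV := {v | (v.1 1 + ax i * v.1 0).degree ≤ (v.1 0).degree}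

theorem deg_ax (i : ℕ) : (ax i).degree = ((i + 1 : ℕ) : WithBot ℕ) := degree_X_pow _

theorem deg_add (i j : ℕ) (h : i ≠ j) : 0 < (ax i + ax j).degree := by
  rcases lt_or_gt_of_ne h with h | h
  · rw [degree_add_eq_right_of_degree_lt (by
      rw [deg_ax, deg_ax]; exact_mod_cast Nat.succ_lt_succ h), deg_ax]
    exact_mod_cast Nat.succ_pos j
  · rw [degree_add_eq_left_of_degree_lt (by
      rw [deg_ax, deg_ax]; exact_mod_cast Nat.succ_lt_succ h), deg_ax]
    exact_mod_cast Nat.succ_pos i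

theorem lt_deg_mul {a p : PR} (ha : 0 < a.degree) (hp : p ≠ 0) : p.degree < (a * p).degree := by
  rw [degree_mul]
  have h1 : p.degree ≠ ⊥ := degree_ne_bot.mpr hp
  obtain ⟨n, hn⟩ := WithBot.ne_bot_iff_exists.mp h1
  obtain ⟨m, hm⟩ := WithBot.ne_bot_iff_exists.mp (ne_bot_of_gt ha)
  rw [← hm] at ha
  rw [← hn, ← hm]
  have h2 : 0 < m := WithBot.coe_lt_coe.mp ha
  exact_mod_cast (by omega : n < m + n)

theorem XX_ne {i : ℕ} {v : NV} (h : v ∈ XX i) : v.1 1 ≠ 0 := by
  intro h0
  unfold XX at h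
  rw [Set.mem_ofPred_eq, h0, degree_zero] at h
  exact not_lt_bot h

theorem YY_ne {i : ℕ} {v : NV} (h : v ∈ YY i) : v.1 0 ≠ 0 := by
  intro h0
  unfold YY at h
  rw [Set.mem_ofPred_eq, h0, degree_zero, le_bot_iff, degree_eq_bot, mul_zero, add_zero] at h
  refine v.2 ?_
  ext1 j
  fin_cases j
  · exact h0
  · exact h

theorem XX_lt {i : ℕ} {v : NV} (h : v ∈ XX i) : (v.1 1).degree < (v.1 0).degree := by
  have h1 : (v.1 1).degree < (ax i * v.1 1).degree :=
    lt_deg_mul (by rw [deg_ax]; exact_mod_cast Nat.succ_pos i) (XX_ne h)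
  have h2 : v.1 0 = (v.1 0 + ax i * v.1 1) + ax i * v.1 1 := by
    rw [add_assoc, two_eq, add_zero]
  rw [h2, degree_add_eq_right_of_degree_lt (lt_trans h h1)]
  exact h1

theorem YY_lt {i : ℕ} {v : NV} (h : v ∈ YY i) : (v.1 0).degree < (v.1 1).degree := by
  have h1 : (v.1 0).degree < (ax i * v.1 0).degree :=
    lt_deg_mul (by rw [deg_ax]; exact_mod_cast Nat.succ_pos i) (YY_ne h)
  have h2 : v.1 1 = (v.1 1 + ax i * v.1 0) + ax i * v.1 0 := by
    rw [add_assoc, two_eq, add_zero]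
  rw [h2, degree_add_eq_right_of_degree_lt (lt_of_le_of_lt h h1)]
  exact h1

theorem XX_disj {i j : ℕ} (h : i ≠ j) : Disjoint (XX i) (XX j) := by
  rw [Set.disjoint_left]
  intro v h1 h2
  have h3 : (v.1 1).degree < ((ax i + ax j) * v.1 1).degree := lt_deg_mul (deg_add i j h) (XX_ne h1)
  have h4 : (ax i + ax j) * v.1 1 = (v.1 0 + ax i * v.1 1) + (v.1 0 + ax j * v.1 1) := by
    have := two_eq (v.1 0)
    linear_combination -this
  rw [h4] at h3
  exact absurd (lt_of_lt_of_le h3 (degree_add_le _ _)) (not_lt.mpr (max_le h1.le h2.le))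

theorem YY_disj {i j : ℕ} (h : i ≠ j) : Disjoint (YY i) (YY j) := by
  rw [Set.disjoint_left]
  intro v h1 h2
  have h3 : (v.1 0).degree < ((ax i + ax j) * v.1 0).degree := lt_deg_mul (deg_add i j h) (YY_ne h1)
  have h4 : (ax i + ax j) * v.1 0 = (v.1 1 + ax i * v.1 0) + (v.1 1 + ax j * v.1 0) := by
    have := two_eq (v.1 1)
    linear_combination -this
  rw [h4] at h3
  exact absurd (lt_of_lt_of_le h3 (degree_add_le _ _)) (not_lt.mpr (max_le h1 h2))

theorem XY_disj (i j : ℕ) : Disjoint (XX i) (YY j) := by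
  rw [Set.disjoint_left]
  intro v h1 h2
  exact lt_asymm (XX_lt h1) (YY_lt h2)

theorem gx_smul (i : ℕ) (v : NV) : (gx i • v).1 =
    ![(v.1 0 + ax i * (v.1 1 + ax i * v.1 0)), v.1 1 + ax i * v.1 0] := by
  rw [smul_val]
  ext1 j
  fin_cases j
  · simp [gx, Matrix.mulVec, dotProduct, Fin.sum_univ_two]
    ring
  · simp [gx, Matrix.mulVec, dotProduct, Fin.sum_univ_two]
    ring

theorem gx_inv_smul (i : ℕ) (v : NV) : ((gx i)⁻¹ • v).1 =
    ![v.1 0 + ax i * v.1 1, v.1 1 + ax i * (v.1 0 + ax i * v.1 1)] := by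
  rw [smul_val, gx_inv]
  ext1 j
  fin_cases j
  · simp [Matrix.mulVec, dotProduct, Fin.sum_univ_two]
  · simp [Matrix.mulVec, dotProduct, Fin.sum_univ_two]
    ring

theorem free_nat : Function.Injective (FreeGroup.lift gx) := by
  refine FreeGroup.injective_lift_of_ping_pong (G := Matrix.SpecialLinearGroup (Fin 2) PR)
    (a := gx) (X := XX) (Y := YY) ?_ ?_ ?_ ?_ ?_ ?_
  · intro i
    refine ⟨⟨![ax i, 1], fun h => ?_⟩, ?_⟩
    · have := congrFun h 1
      simp at this
    · change (ax i + ax i * 1).degree < (1 : PR).degree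
      rw [mul_one, two_eq, degree_zero, degree_one]
      exact WithBot.bot_lt_coe 0
  · exact fun i j h => XX_disj h
  · exact fun i j h => YY_disj h
  · exact XY_disj
  · rintro i _ ⟨v, hv, rfl⟩
    change ((gx i • v).1 0 + ax i * (gx i • v).1 1).degree < ((gx i • v).1 1).degree
    have hv' : (v.1 0).degree < (v.1 1 + ax i * v.1 0).degree := not_le.mp hv
    rw [gx_smul]
    have h1 : v.1 0 + ax i * (v.1 1 + ax i * v.1 0) + ax i * (v.1 1 + ax i * v.1 0) = v.1 0 := by
      rw [add_assoc, two_eq, add_zero]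
    change (v.1 0 + ax i * (v.1 1 + ax i * v.1 0) + ax i * (v.1 1 + ax i * v.1 0)).degree <
      (v.1 1 + ax i * v.1 0).degree
    rw [h1]
    exact hv'
  · rintro i _ ⟨v, hv, rfl⟩
    have hv' : (v.1 1).degree ≤ (v.1 0 + ax i * v.1 1).degree := not_lt.mp hv
    change (((gx i)⁻¹ • v).1 1 + ax i * ((gx i)⁻¹ • v).1 0).degree ≤ (((gx i)⁻¹ • v).1 0).degree
    rw [gx_inv_smul]
    change (v.1 1 + ax i * (v.1 0 + ax i * v.1 1) + ax i * (v.1 0 + ax i * v.1 1)).degree ≤
      (v.1 0 + ax i * v.1 1).degree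
    rw [add_assoc, two_eq, add_zero]
    exact hv'

theorem d_free : D_free := by
  intro r
  refine ⟨PR, inferInstance, inferInstance,
    (FreeGroup.lift gx).comp (FreeGroup.map (fun i : Fin r => (i : ℕ))), ?_⟩
  refine free_nat.comp ?_
  let g : FreeGroup ℕ →* FreeGroup (Fin r) :=
    FreeGroup.lift fun n => if h : n < r then FreeGroup.of ⟨n, h⟩ else 1
  refine Function.LeftInverse.injective (g := g) fun x => ?_
  exact DFunLike.congr_fun (show g.comp (FreeGroup.map (fun i : Fin r => (i : ℕ))) =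
    MonoidHom.id _ from by ext i; simp [g]) x

end Pool.Agent.FrAsm
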