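import Pool.Agent.Lib.MP_305fdd_al.Fr.Asm.AsmT
import Pool.Agent.Lib.MP_305fdd_al.Fr.Asm.Top
import Pool.Agent.Lib.MP_305fdd_al.Fr.Asm.Free
import Pool.Agent.Lib.MP_305fdd_al.Fr.L.Main
import Pool.Agent.Lib.MP_305fdd_al.Fr.N.H.Cls
import Pool.Agent.Lib.MP_305fdd_al.Fr.N.H.HB
import Pool.Agent.Lib.MP_305fdd_al.Fr.Top.Ab
import Pool.Agent.Lib.MP_305fdd_al.Fr.Top.Gr
import Pool.Agent.Lib.MP_305fdd_al.Fr.Top.Fac3
import Pool.Agent.Lib.MP_305fdd_al.Fr.Asm.CntFin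

/-!
# MP_305fdd_al, F_r project, assembly: the theorem
-/

set_option autoImplicit false

namespace Pool.Agent.FrAsm

open Pool.Agent.FrN Pool.Agent.MP_305fdd_al

theorem d_DIV : D_DIV := fun _ _ _ _ _ _ _ h _ hx => FrTop.div h hx

/-- free groups of finite rank are profinitely rigid, from the blocks which are not yet finished -/
theorem rigid_of (hN : I_N) (hNSG : D_NSG) (r : ℕ) :
    ProfinitelyRigid (FreeGroup (Fin r)) :=
  top FrH.d_cls FrTop.p_fac d_free FrTop.p_zero FrTop.p_ab FrH.d_HB hN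
    (d_T d_DIV hNSG d_CNT (FrL.p_lau d_DIV)) r

end Pool.Agent.FrAsm
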