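import Pool.Agent.Lib.MP_305fdd_al.Fr.Asm.Fin
import Pool.Agent.Lib.MP_305fdd_al.Fr.N.Final
import Pool.Agent.Lib.MP_305fdd_al.Fr.S.NSGfin

/-!
# MP_305fdd_al: finitely generated free groups are profinitely rigid
-/

set_option autoImplicit false

namespace Pool.Agent.FrAsm

open Pool.Agent.MP_305fdd_al

/-- **Free groups of finite rank are profinitely rigid in the absolute sense.** -/
theorem rigid (r : ℕ) : ProfinitelyRigid (FreeGroup (Fin r)) :=
  rigid_of FrN.t_N FrS.d_NSG r

end Pool.Agent.FrAsm
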